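import Mathlib
import Pool.Agent.Lib.RG.RMain

/-!
# MP_dbd2c3_nt: a linking criterion for rank gradient zero, for all tame sets outside a thin set

The definitions used in the statement:

* `Pool.Agent.RG.Above`, `Pool.Agent.RG.IsDec`, `Pool.Agent.RG.IsInert`,
  `Pool.Agent.RG.UnrOutside` (`w` lies above `q`; the decomposition and inertia groups of `w`;
  unramified outside `S`) in `Pool/Agent/Lib/RG/Defs.lean`;
* `Pool.Agent.RG.Lies` (`w` lies above `v`) in `Pool/Agent/Lib/RG/G01.lean`;
* `Pool.Agent.RG.UnrP`, `Pool.Agent.RG.InCP`, `Pool.Agent.RG.maxExtP`, `Pool.Agent.RG.GP` (the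
  maximal `p`-extension of `K` unramified outside `S` and its Galois group, with the Krull topology)
  in `Pool/Agent/Lib/RG/RDefs.lean`;
* `Pool.Agent.RG.NotSplit` (`q` does not split completely in the maximal `p`-extension of `ℚ`
  unramified outside `S₁`) in `Pool/Agent/Lib/RG/M4.lean`;
* `Pool.Agent.RG.link` (linking numbers) in `Pool/Agent/Lib/RG/GX3.lean`;
* `Pool.Agent.RG.Q.cup`, `Pool.Agent.RG.Q.Criterion` (the cup product in coordinates and the
  criterion) in `Pool/Agent/Lib/RG/QCrit.lean`;
* `Pool.Agent.RG.Ram` (`q` ramifies) in `Pool/Agent/Lib/RG/R4.lean`;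
* `Pool.Agent.RG.GenBy` (topological generation) in `Pool/Agent/Lib/RG/PMain0.lean`;
* `Pool.Agent.RG.rankGradient` in `Pool/Agent/Lib/RG/G14.lean`.
-/

set_option autoImplicit false

namespace Pool.Agent.Lib.MP_dbd2c3_kept.LinkingCriterion

open NumberField IsDedekindDomain Pool.Agent.RG

/-- Let `p` be an odd prime, `M` a finite Galois extension of `ℚ` of `p`-power degree in which `p`
is unramified, and `K` a number field which embeds into `M` (for instance `K = ℚ`). Let `S₁` be a
finite nonempty set of primes congruent to `1` modulo `p` whose linking matrix satisfies the cup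
product criterion `Criterion`. Let `S` be any finite set of primes of `K` of norm congruent to `1`
modulo `p` which contains the primes above `S₁`, such that no prime number `q ∉ S₁` which lies below
`S` or ramifies in `M` splits completely in the maximal `p`-extension of `ℚ` unramified outside `S₁`.
Then the group `G_{K,p,S}` is infinite and has rank gradient zero. -/
theorem result (p : ℕ) [Fact p.Prime] (hp : p ≠ 2) (S₁ : Finset ℕ)
    (hS₁ : ∀ q ∈ S₁, q.Prime ∧ q % p = 1) (hne : S₁.Nonempty)
    (lam : ∀ r : S₁, (ZMod (r : ℕ))ˣ →* Multiplicative (ZMod p))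
    (hlam : ∀ r, Function.Surjective (lam r)) (hcrit : Q.Criterion (link lam))
    (K M : Type) [Field K] [NumberField K] [Field M] [NumberField M] [IsGalois ℚ M]
    (hd : ∃ k, Module.finrank ℚ M = p ^ k) (ht : ¬ Ram p M) (j : K →+* M)
    (S : Set (HeightOneSpectrum (𝓞 K))) (hfin : S.Finite)
    (hN : ∀ v ∈ S, Ideal.absNorm v.asIdeal % p = 1)
    (hcont : ∀ v : HeightOneSpectrum (𝓞 K), ∀ q ∈ S₁, Above v q → v ∈ S)
    (hns : ∀ q : ℕ, q.Prime → q ∉ S₁ → ((∃ v ∈ S, Above v q) ∨ Ram q M) → NotSplit p S₁ q) :
    Infinite (GP p S) ∧ rankGradient (GP p S) = 0 :=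
  rank_gradient_mono hp hS₁ hne lam hlam hcrit hd ht j S hfin hN hcont hns

end Pool.Agent.Lib.MP_dbd2c3_kept.LinkingCriterion
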